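import Mathlib

/-!
# Valuated Delta-matroids from odd-dimensional Hermitian isotropic Grassmannians

Let `K` be a field with an involutive automorphism `σ` and a `σ`-invariant nonarchimedean
valuation `ν`, and let `V` be a Hermitian space of dimension `2n+1` with a basis
`e_1, ..., e_n, f_1, ..., f_n, g` as in the problem.  For every isotropic subspace `L` of dimension
`n` the function `S ↦ p_S(L)` is a valuated Delta-matroid.  There is no hypothesis on the residue
characteristic.

Idea: if `S, T` are the ends of an edge, write `L` with respect to the columns of `S` as the row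
space of `(1 | A | w)`.  Then `A i j + σ (A j i) = - α w_i σ(w_j)`, and if `S Δ T` had at least three
elements, the conditions on the principal minors of size one and two would force
`ν (A i j) > (u_i + u_j) / 2` for all `i, j` in `S Δ T`, hence `ν (det A[S Δ T]) > ∑ u_i`.
-/

set_option autoImplicit false

namespace Pool.Agent.Results.MP_973d57_co.OddHermitian

open Module

/-- The coordinates `(e_1, ..., e_n, f_1, ..., f_n, g)`. -/
abbrev Idx (n : ℕ) : Type := (Fin n ⊕ Fin n) ⊕ Unit

section Defs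

variable {n : ℕ}

/-- The coordinate `e_i`. -/
abbrev ei (i : Fin n) : Idx n := Sum.inl (Sum.inl i)

/-- The coordinate `f_i`. -/
abbrev fi (i : Fin n) : Idx n := Sum.inl (Sum.inr i)

/-- The coordinate `g`. -/
abbrev gi : Idx n := Sum.inr ()

/-- The coordinate `e_i` if `i ∈ S` and `f_i` if `i ∉ S`. -/
def col (S : Finset (Fin n)) (i : Fin n) : Idx n := if i ∈ S then ei i else fi i

/-- The indicator vector of `S`. -/
noncomputable def pt (S : Finset (Fin n)) : Fin n → ℝ := fun i => if i ∈ S then 1 else 0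

/-- The polytope `conv {(x, p x) : p x ≠ ∞}` in `ℝ^n × ℝ`. -/
def lifted (p : Finset (Fin n) → WithTop ℝ) : Set ((Fin n → ℝ) × ℝ) :=
  convexHull ℝ {q | ∃ (S : Finset (Fin n)) (r : ℝ), p S = (r : WithTop ℝ) ∧ q = (pt S, r)}

/-- The lower face on which the linear functional `(x, h) ↦ h - u · x` is minimal. -/
def lowerFace (p : Finset (Fin n) → WithTop ℝ) (u : Fin n → ℝ) : Set ((Fin n → ℝ) × ℝ) :=
  {q | q ∈ lifted p ∧ ∀ q' ∈ lifted p, q.2 - ∑ i, u i * q.1 i ≤ q'.2 - ∑ i, u i * q'.1 i}

/-- The cells of the regular subdivision induced by `p`: the projections of the lower faces. -/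
def IsCell (p : Finset (Fin n) → WithTop ℝ) (C : Set (Fin n → ℝ)) : Prop :=
  ∃ u : Fin n → ℝ, C = Prod.fst '' lowerFace p u

/-- `p` is a valuated Delta-matroid: for every edge of the subdivision, i.e. every cell which is a
segment with distinct ends `x, y`, the vector `y - x` is `± e_i` or `± (e_i ± e_j)`, `i ≠ j`. -/
def IsValuatedDeltaMatroid (p : Finset (Fin n) → WithTop ℝ) : Prop :=
  ∀ x y : Fin n → ℝ, x ≠ y → IsCell p (segment ℝ x y) →
    ∃ (i j : Fin n) (d : Fin n → ℝ),
      (d = Pi.single i 1 ∨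
        (i ≠ j ∧ (d = Pi.single i 1 + Pi.single j 1 ∨ d = Pi.single i 1 - Pi.single j 1))) ∧
      (y - x = d ∨ y - x = -d)

/-- The minor of the `n × (2n+1)` matrix `M` on the columns `{e_i : i ∈ S} ∪ {f_i : i ∉ S}`. -/
def minor {K : Type*} [Field K] (M : Matrix (Fin n) (Idx n) K) (S : Finset (Fin n)) : K :=
  Matrix.det (Matrix.of fun i j => M i (col S j))

/-- The basis `B = (e_1, ..., e_n, f_1, ..., f_n, g)` of the space `V` with the Hermitian form `b`:
`b(e_i, e_i) = b(f_i, f_i) = 0`, `b(e_i, f_i) = 1`, the planes `⟨e_i, f_i⟩` are pairwise orthogonal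
and orthogonal to `g`, and `b(g, g) = α ≠ 0`. -/
structure Adapted {K V : Type*} [Field K] [AddCommGroup V] [Module K V] {σ : K →+* K}
    (b : V →ₗ[K] V →ₛₗ[σ] K) (B : Basis (Idx n) K V) (α : K) : Prop where
  ee : ∀ i j, b (B (ei i)) (B (ei j)) = 0
  ff : ∀ i j, b (B (fi i)) (B (fi j)) = 0
  ef : ∀ i j, b (B (ei i)) (B (fi j)) = if i = j then 1 else 0
  eg : ∀ i, b (B (ei i)) (B gi) = 0
  fg : ∀ i, b (B (fi i)) (B gi) = 0
  gg : b (B gi) (B gi) = α
  ne : α ≠ 0

end Defs

/-! ### Convex geometry -/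

section Convex

variable {n : ℕ}

lemma pt_inj {S T : Finset (Fin n)} (h : pt S = pt T) : S = T := by
  ext i
  have := congrFun h i
  unfold pt at this
  by_cases h1 : i ∈ S <;> by_cases h2 : i ∈ T <;> simp_all

/-- a vertex of the cube in a segment between two vertices of the cube is one of them -/
lemma vertex_of_segment {S T Z : Finset (Fin n)} (h : pt Z ∈ segment ℝ (pt S) (pt T)) :
    Z = S ∨ Z = T := by
  obtain ⟨a, c, ha, hc, hac, h⟩ := h
  by_cases hST : S = T
  · left
    subst hST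
    apply pt_inj
    rw [← h, ← add_smul, hac, one_smul]
  obtain ⟨i, hi⟩ : ∃ i, ¬ (i ∈ S ↔ i ∈ T) := by
    by_contra hcon
    push Not at hcon
    exact hST (Finset.ext hcon)
  have h0 : a = 0 ∨ c = 0 := by
    have h1 := congrFun h i
    simp only [pt, Pi.add_apply, Pi.smul_apply, smul_eq_mul] at h1
    by_cases h2 : i ∈ S <;> by_cases h3 : i ∈ T <;> by_cases h4 : i ∈ Z <;>
      simp_all
  rcases h0 with h0 | h0
  · right
    subst h0
    apply pt_inj
    rw [← h, zero_smul, zero_add, show c = 1 by linarith, one_smul]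
  · left
    subst h0
    apply pt_inj
    rw [← h, zero_smul, add_zero, show a = 1 by linarith, one_smul]

lemma sum_pt (u : Fin n → ℝ) (S : Finset (Fin n)) : ∑ i, u i * pt S i = ∑ i ∈ S, u i := by
  unfold pt
  simp [Finset.sum_ite_mem]

/-- an end of a segment is an extreme point of it -/
lemma end_extreme {E : Type*} [AddCommGroup E] [Module ℝ E] {x y z1 z2 : E}
    (h1 : z1 ∈ segment ℝ x y) (h2 : z2 ∈ segment ℝ x y) {a c : ℝ} (ha : 0 < a) (hc : 0 < c)
    (hac : a + c = 1) (h : a • z1 + c • z2 = x) : z1 = x ∧ z2 = x := by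
  rw [segment_eq_image'] at h1 h2
  obtain ⟨s1, ⟨hs1, -⟩, rfl⟩ := h1
  obtain ⟨s2, ⟨hs2, -⟩, rfl⟩ := h2
  have h3 : (a * s1 + c * s2) • (y - x) = 0 := by
    have : a • (x + s1 • (y - x)) + c • (x + s2 • (y - x)) =
        (a + c) • x + (a * s1 + c * s2) • (y - x) := by
      simp only [smul_add, add_smul, mul_smul]
      abel
    rw [this, hac, one_smul] at h
    simpa using h
  rcases smul_eq_zero.1 h3 with h4 | h4
  · have e1 : s1 = 0 := by nlinarith [mul_nonneg ha.le hs1, mul_nonneg hc.le hs2]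
    have e2 : s2 = 0 := by nlinarith [mul_nonneg ha.le hs1, mul_nonneg hc.le hs2]
    simp [e1, e2]
  · simp [h4]

/-- the ends of an edge are vertices of the cube, and an affine function touches `p` exactly there -/
lemma edge_vertices {p : Finset (Fin n) → WithTop ℝ} {x y : Fin n → ℝ} (hxy : x ≠ y)
    (h : IsCell p (segment ℝ x y)) :
    ∃ (S T : Finset (Fin n)) (u : Fin n → ℝ) (m : ℝ), x = pt S ∧ y = pt T ∧ S ≠ T ∧
      p S = ((m + ∑ i ∈ S, u i : ℝ) : WithTop ℝ) ∧ p T = ((m + ∑ i ∈ T, u i : ℝ) : WithTop ℝ) ∧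
      ∀ Z, Z ≠ S → Z ≠ T → ((m + ∑ i ∈ Z, u i : ℝ) : WithTop ℝ) < p Z := by
  obtain ⟨u, hu⟩ := h
  -- every end is a vertex
  have key : ∀ x' y' : Fin n → ℝ, segment ℝ x' y' = Prod.fst '' lowerFace p u →
      ∃ (S : Finset (Fin n)) (r : ℝ), p S = (r : WithTop ℝ) ∧ x' = pt S ∧
        (pt S, r) ∈ lowerFace p u := by
    intro x' y' hu'
    obtain ⟨q, hq, hqx⟩ : x' ∈ Prod.fst '' lowerFace p u := hu' ▸ left_mem_segment ℝ x' y'
    have hext : q ∈ (lifted p).extremePoints ℝ := by
      rw [mem_extremePoints]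
      refine ⟨hq.1, ?_⟩
      intro q1 hq1 q2 hq2 hseg
      obtain ⟨a, c, ha, hc, hac, hqq⟩ := hseg
      have l1 := hq.2 q1 hq1
      have l2 := hq.2 q2 hq2
      have lq : q.2 - ∑ i, u i * q.1 i =
          a * (q1.2 - ∑ i, u i * q1.1 i) + c * (q2.2 - ∑ i, u i * q2.1 i) := by
        rw [← hqq]
        simp only [Prod.snd_add, Prod.smul_snd, Prod.fst_add, Prod.smul_fst, Pi.add_apply,
          Pi.smul_apply, smul_eq_mul, mul_add, Finset.sum_add_distrib]
        have e1 : ∑ i, u i * (a * q1.1 i) = a * ∑ i, u i * q1.1 i := by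
          rw [Finset.mul_sum]; exact Finset.sum_congr rfl fun i _ => by ring
        have e2 : ∑ i, u i * (c * q2.1 i) = c * ∑ i, u i * q2.1 i := by
          rw [Finset.mul_sum]; exact Finset.sum_congr rfl fun i _ => by ring
        rw [e1, e2]
        ring
      have l3 : q1.2 - ∑ i, u i * q1.1 i = q.2 - ∑ i, u i * q.1 i := by
        have : c = 1 - a := by linarith
        subst this
        nlinarith
      have l4 : q2.2 - ∑ i, u i * q2.1 i = q.2 - ∑ i, u i * q.1 i := by
        have : a = 1 - c := by linarith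
        subst this
        nlinarith
      have m1 : q1 ∈ lowerFace p u := ⟨hq1, fun q' hq' => l3.le.trans (hq.2 q' hq')⟩
      have m2 : q2 ∈ lowerFace p u := ⟨hq2, fun q' hq' => l4.le.trans (hq.2 q' hq')⟩
      have n1 : q1.1 ∈ segment ℝ x' y' := hu' ▸ ⟨q1, m1, rfl⟩
      have n2 : q2.1 ∈ segment ℝ x' y' := hu' ▸ ⟨q2, m2, rfl⟩
      have n3 : a • q1.1 + c • q2.1 = x' := by
        rw [← hqx, ← hqq]
        rfl
      obtain ⟨o1, o2⟩ := end_extreme n1 n2 ha hc hac n3
      refine ⟨Prod.ext (o1.trans hqx.symm) ?_, Prod.ext (o2.trans hqx.symm) ?_⟩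
      · rw [o1, ← hqx] at l3
        linarith
      · rw [o2, ← hqx] at l4
        linarith
    obtain ⟨S, r, hS, hqS⟩ := extremePoints_convexHull_subset hext
    refine ⟨S, r, hS, ?_, hqS ▸ hq⟩
    rw [← hqx, hqS]
  obtain ⟨S, r, hS, hxS, hFS⟩ := key x y hu
  obtain ⟨T, r', hT, hyT, hFT⟩ := key y x (by rw [segment_symm]; exact hu)
  have hA : ∀ (Z : Finset (Fin n)) (t : ℝ), p Z = (t : WithTop ℝ) → (pt Z, t) ∈ lifted p :=
    fun Z t hZ => subset_convexHull ℝ _ ⟨Z, t, hZ, rfl⟩
  have e1 := hFS.2 _ (hA T r' hT)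
  have e2 := hFT.2 _ (hA S r hS)
  simp only [sum_pt] at e1 e2
  refine ⟨S, T, u, r - ∑ i ∈ S, u i, hxS, hyT, ?_, ?_, ?_, ?_⟩
  · rintro rfl
    exact hxy (hxS.trans hyT.symm)
  · rw [hS]; congr 1; ring
  · rw [hT]; congr 1; linarith
  · intro Z hZS hZT
    rcases eq_or_ne (p Z) ⊤ with hZ | hZ
    · rw [hZ]; exact WithTop.coe_lt_top _
    · obtain ⟨t, ht⟩ := WithTop.ne_top_iff_exists.1 hZ
      rw [← ht]
      have e3 := hFS.2 _ (hA Z t ht.symm)
      simp only [sum_pt] at e3
      refine WithTop.coe_lt_coe.2 (lt_of_le_of_ne (by linarith) ?_)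
      intro he
      have hF : (pt Z, t) ∈ lowerFace p u := by
        refine ⟨hA Z t ht.symm, fun q' hq' => ?_⟩
        have := hFS.2 q' hq'
        simp only [sum_pt] at this ⊢
        linarith
      have hseg : pt Z ∈ segment ℝ (pt S) (pt T) := by
        rw [← hxS, ← hyT, hu]
        exact ⟨_, hF, rfl⟩
      rcases vertex_of_segment hseg with h | h
      · exact hZS h
      · exact hZT h

/-- a difference of two vertices at Hamming distance one or two -/
lemma direction {S T : Finset (Fin n)} (hST : S ≠ T) (h : (symmDiff S T).card ≤ 2) :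
    ∃ (i j : Fin n) (d : Fin n → ℝ),
      (d = Pi.single i 1 ∨
        (i ≠ j ∧ (d = Pi.single i 1 + Pi.single j 1 ∨ d = Pi.single i 1 - Pi.single j 1))) ∧
      (pt T - pt S = d ∨ pt T - pt S = -d) := by
  have hne : (symmDiff S T).Nonempty := by
    rw [Finset.nonempty_iff_ne_empty]
    intro h0
    exact hST (symmDiff_eq_bot.1 (by simpa using h0))
  have hval : ∀ k, k ∉ symmDiff S T → (pt T - pt S) k = 0 := by
    intro k hk
    rw [Finset.mem_symmDiff] at hk
    simp only [pt, Pi.sub_apply]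
    by_cases h1 : k ∈ S <;> by_cases h2 : k ∈ T <;> simp_all
  have hval' : ∀ k, k ∈ symmDiff S T → (pt T - pt S) k = 1 ∨ (pt T - pt S) k = -1 := by
    intro k hk
    rw [Finset.mem_symmDiff] at hk
    simp only [pt, Pi.sub_apply]
    by_cases h1 : k ∈ S <;> by_cases h2 : k ∈ T <;> simp_all
  have hc : (symmDiff S T).card = 1 ∨ (symmDiff S T).card = 2 := by
    have := hne.card_pos
    omega
  rcases hc with hc | hc
  · obtain ⟨i, hi⟩ := Finset.card_eq_one.1 hc
    refine ⟨i, i, Pi.single i 1, Or.inl rfl, ?_⟩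
    rcases hval' i (by simp [hi]) with h1 | h1
    · left
      ext k
      rcases eq_or_ne k i with rfl | hk
      · simpa using h1
      · rw [hval k (by simp [hi, hk]), Pi.single_eq_of_ne hk]
    · right
      ext k
      rcases eq_or_ne k i with rfl | hk
      · simpa using h1
      · rw [hval k (by simp [hi, hk]), Pi.neg_apply, Pi.single_eq_of_ne hk, neg_zero]
  · obtain ⟨i, j, hij, hi⟩ := Finset.card_eq_two.1 hc
    have hk0 : ∀ k, k ≠ i → k ≠ j → (pt T - pt S) k = 0 := fun k h1 h2 =>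
      hval k (by simp [hi, h1, h2])
    rcases hval' i (by simp [hi]) with h1 | h1 <;> rcases hval' j (by simp [hi]) with h2 | h2
    · refine ⟨i, j, _, Or.inr ⟨hij, Or.inl rfl⟩, Or.inl ?_⟩
      ext k
      rcases eq_or_ne k i with rfl | hki
      · simp [h1, Pi.single_eq_of_ne hij]
      · rcases eq_or_ne k j with rfl | hkj
        · simp [h2, Pi.single_eq_of_ne hki]
        · rw [hk0 k hki hkj]
          simp [Pi.single_eq_of_ne hki, Pi.single_eq_of_ne hkj]
    · refine ⟨i, j, _, Or.inr ⟨hij, Or.inr rfl⟩, Or.inl ?_⟩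
      ext k
      rcases eq_or_ne k i with rfl | hki
      · simp [h1, Pi.single_eq_of_ne hij]
      · rcases eq_or_ne k j with rfl | hkj
        · simp [h2, Pi.single_eq_of_ne hki]
        · rw [hk0 k hki hkj]
          simp [Pi.single_eq_of_ne hki, Pi.single_eq_of_ne hkj]
    · refine ⟨i, j, _, Or.inr ⟨hij, Or.inr rfl⟩, Or.inr ?_⟩
      ext k
      rcases eq_or_ne k i with rfl | hki
      · simp [h1, Pi.single_eq_of_ne hij]
      · rcases eq_or_ne k j with rfl | hkj
        · simp [h2, Pi.single_eq_of_ne hki]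
        · rw [hk0 k hki hkj]
          simp [Pi.single_eq_of_ne hki, Pi.single_eq_of_ne hkj]
    · refine ⟨i, j, _, Or.inr ⟨hij, Or.inl rfl⟩, Or.inr ?_⟩
      ext k
      rcases eq_or_ne k i with rfl | hki
      · simp [h1, Pi.single_eq_of_ne hij]
      · rcases eq_or_ne k j with rfl | hkj
        · simp [h2, Pi.single_eq_of_ne hki]
        · rw [hk0 k hki hkj]
          simp [Pi.single_eq_of_ne hki, Pi.single_eq_of_ne hkj]

end Convex

/-! ### Valuations -/

section Val

variable {K : Type*} [Field K] (ν : AddValuation K (WithTop ℝ))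

lemma val_ne_top {a : K} (ha : a ≠ 0) : ∃ r : ℝ, ν a = (r : WithTop ℝ) := by
  have h : ν a ≠ ⊤ := by
    rw [Ne, AddValuation.top_iff]
    exact ha
  obtain ⟨r, hr⟩ := WithTop.ne_top_iff_exists.1 h
  exact ⟨r, hr.symm⟩

lemma lt_mul {a c : K} {r t : ℝ} (ha : (r : WithTop ℝ) < ν a) (hc : (t : WithTop ℝ) < ν c) :
    ((r + t : ℝ) : WithTop ℝ) < ν (a * c) := by
  rw [ν.map_mul]
  rcases eq_or_ne (ν a) ⊤ with h1 | h1
  · rw [h1, WithTop.top_add]; exact WithTop.coe_lt_top _
  rcases eq_or_ne (ν c) ⊤ with h2 | h2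
  · rw [h2, WithTop.add_top]; exact WithTop.coe_lt_top _
  obtain ⟨x, hx⟩ := WithTop.ne_top_iff_exists.1 h1
  obtain ⟨y, hy⟩ := WithTop.ne_top_iff_exists.1 h2
  rw [← hx] at ha ⊢
  rw [← hy] at hc ⊢
  rw [← WithTop.coe_add, WithTop.coe_lt_coe]
  have := WithTop.coe_lt_coe.1 ha
  have := WithTop.coe_lt_coe.1 hc
  linarith

lemma lt_prod {ι : Type*} (s : Finset ι) (hs : s.Nonempty) (f : ι → K) (r : ι → ℝ)
    (h : ∀ i ∈ s, (r i : WithTop ℝ) < ν (f i)) :
    ((∑ i ∈ s, r i : ℝ) : WithTop ℝ) < ν (∏ i ∈ s, f i) := by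
  classical
  induction hs using Finset.Nonempty.cons_induction with
  | singleton a => simpa using h a (by simp)
  | cons a s ha hs ih =>
    rw [Finset.sum_cons, Finset.prod_cons]
    exact lt_mul ν (h a (by simp)) (ih fun i hi => h i (by simp [hi]))

lemma lt_sum {ι : Type*} (s : Finset ι) (f : ι → K) (r : ℝ)
    (h : ∀ i ∈ s, (r : WithTop ℝ) < ν (f i)) : (r : WithTop ℝ) < ν (∑ i ∈ s, f i) :=
  ν.map_lt_sum (WithTop.coe_ne_top) h

/-- A determinant all of whose entries satisfy `ν (A i j) > (s i + s j) / 2` has valuation greater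
than `∑ s i`. -/
lemma lt_det {ι : Type*} [Fintype ι] [DecidableEq ι] [Nonempty ι] (A : Matrix ι ι K) (s : ι → ℝ)
    (h : ∀ i j, (((s i + s j) / 2 : ℝ) : WithTop ℝ) < ν (A i j)) :
    ((∑ i, s i : ℝ) : WithTop ℝ) < ν A.det := by
  rw [Matrix.det_apply]
  refine lt_sum ν _ _ _ fun π _ => ?_
  have h1 : ((∑ i, (s (π i) + s i) / 2 : ℝ) : WithTop ℝ) < ν (∏ i, A (π i) i) :=
    lt_prod ν _ Finset.univ_nonempty _ _ fun i _ => h _ _
  have h2 : ∑ i, (s (π i) + s i) / 2 = ∑ i, s i := by
    rw [← Finset.sum_div, Finset.sum_add_distrib, Equiv.sum_comp π s]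
    ring
  rw [h2] at h1
  rcases Int.units_eq_one_or (Equiv.Perm.sign π) with h3 | h3
  · rw [h3, one_smul]; exact h1
  · rw [h3, Units.neg_smul, one_smul, ν.map_neg]; exact h1

/-- The key step: the entries are bounded by the principal minors of size one and two. -/
lemma entry_bound (σ : K →+* K) (hν : ∀ a, ν (σ a) = ν a) {ι : Type*}
    (A : Matrix ι ι K) (w : ι → K) (α : K) (hα : α ≠ 0)
    (hA : ∀ i j, A i j + σ (A j i) + α * w i * σ (w j) = 0) (s : ι → ℝ)
    (h1 : ∀ i, (s i : WithTop ℝ) < ν (A i i))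
    (h2 : ∀ i j, i ≠ j → ((s i + s j : ℝ) : WithTop ℝ) < ν (A i i * A j j - A i j * A j i))
    (i j : ι) : (((s i + s j) / 2 : ℝ) : WithTop ℝ) < ν (A i j) := by
  rcases eq_or_ne i j with rfl | hij
  · rw [add_self_div_two]; exact h1 i
  obtain ⟨a0, ha0⟩ := val_ne_top ν hα
  -- the bound for `w`
  have hw : ∀ k, w k = 0 ∨ ∃ r : ℝ, ν (w k) = (r : WithTop ℝ) ∧ s k < a0 + 2 * r := by
    intro k
    rcases eq_or_ne (w k) 0 with h0 | h0
    · exact Or.inl h0
    obtain ⟨r, hr⟩ := val_ne_top ν h0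
    refine Or.inr ⟨r, hr, ?_⟩
    have e : α * w k * σ (w k) = -(A k k + σ (A k k)) := by
      linear_combination hA k k
    have h3 : (s k : WithTop ℝ) < ν (α * w k * σ (w k)) := by
      rw [e, ν.map_neg]
      exact ν.map_lt_add (h1 k) (by rw [hν]; exact h1 k)
    rw [ν.map_mul, ν.map_mul, hν, ha0, hr, ← WithTop.coe_add, ← WithTop.coe_add,
      WithTop.coe_lt_coe] at h3
    linarith
  have hww : (((s i + s j) / 2 : ℝ) : WithTop ℝ) < ν (α * w i * σ (w j)) := by
    rcases hw i with h0 | ⟨r, hr, hr'⟩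
    · rw [h0, mul_zero, zero_mul, ν.map_zero]; exact WithTop.coe_lt_top _
    rcases hw j with h0 | ⟨t, ht, ht'⟩
    · rw [h0, map_zero, mul_zero, ν.map_zero]; exact WithTop.coe_lt_top _
    rw [ν.map_mul, ν.map_mul, hν, ha0, hr, ht, ← WithTop.coe_add, ← WithTop.coe_add,
      WithTop.coe_lt_coe]
    linarith
  by_contra hcon
  rw [not_lt] at hcon
  -- `ν (A j i) = ν (A i j)`
  have e1 : ν (A j i) = ν (A i j) := by
    have e2 : σ (A j i) = -(α * w i * σ (w j)) - A i j := by linear_combination hA i j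
    rw [← hν (A j i), e2, sub_eq_add_neg,
      ν.map_add_of_distinct_val (by
        rw [ν.map_neg, ν.map_neg]
        exact (lt_of_le_of_lt hcon hww).ne'),
      ν.map_neg, ν.map_neg, min_eq_right (lt_of_le_of_lt hcon hww).le]
  obtain ⟨t, ht⟩ : ∃ t : ℝ, ν (A i j) = (t : WithTop ℝ) := by
    obtain ⟨t, ht⟩ := WithTop.ne_top_iff_exists.1
      (ne_of_lt (lt_of_le_of_lt hcon (WithTop.coe_lt_top _)))
    exact ⟨t, ht.symm⟩
  rw [ht, WithTop.coe_le_coe] at hcon
  have h3 : ν (A i j * A j i) ≤ ((s i + s j : ℝ) : WithTop ℝ) := by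
    rw [ν.map_mul, e1, ht, ← WithTop.coe_add, WithTop.coe_le_coe]
    linarith
  have h4 : ((s i + s j : ℝ) : WithTop ℝ) < ν (A i i * A j j) := lt_mul ν (h1 i) (h1 j)
  have h5 := h2 i j hij
  have h6 : ((s i + s j : ℝ) : WithTop ℝ) < ν (A i j * A j i) := by
    have : A i j * A j i = A i i * A j j + -(A i i * A j j - A i j * A j i) := by ring
    rw [this]
    exact ν.map_lt_add h4 (by rw [ν.map_neg]; exact h5)
  exact absurd h3 (not_le.2 h6)

end Val

/-! ### Isotropic subspaces -/

section Main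

variable {n : ℕ}

lemma col_mem {S : Finset (Fin n)} {i : Fin n} (h : i ∈ S) : col S i = ei i := by
  simp [col, h]

lemma col_not_mem {S : Finset (Fin n)} {i : Fin n} (h : i ∉ S) : col S i = fi i := by
  simp [col, h]

lemma col_symmDiff_mem {S Y : Finset (Fin n)} {i : Fin n} (h : i ∈ Y) :
    col (symmDiff S Y) i = col Sᶜ i := by
  by_cases hS : i ∈ S
  · rw [col_not_mem (by simp [Finset.mem_symmDiff, hS, h]), col_not_mem (by simp [hS])]
  · rw [col_mem (by simp [Finset.mem_symmDiff, hS, h]), col_mem (by simp [hS])]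

lemma col_symmDiff_not_mem {S Y : Finset (Fin n)} {i : Fin n} (h : i ∉ Y) :
    col (symmDiff S Y) i = col S i := by
  by_cases hS : i ∈ S
  · rw [col_mem (by simp [Finset.mem_symmDiff, hS, h]), col_mem hS]
  · rw [col_not_mem (by simp [Finset.mem_symmDiff, hS, h]), col_not_mem hS]

lemma sum_symmDiff (S Y : Finset (Fin n)) (u : Fin n → ℝ) :
    ∑ i ∈ symmDiff S Y, u i = ∑ i ∈ S, u i + ∑ i ∈ Y, if i ∈ S then -u i else u i := by
  have h : ∀ (Z : Finset (Fin n)) (f : Fin n → ℝ), ∑ i ∈ Z, f i = ∑ i, if i ∈ Z then f i else 0 :=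
    fun Z f => by simp [Finset.sum_ite_mem]
  rw [h (symmDiff S Y), h S, h Y, ← Finset.sum_add_distrib]
  refine Finset.sum_congr rfl fun i _ => ?_
  by_cases h1 : i ∈ S <;> by_cases h2 : i ∈ Y <;> simp [Finset.mem_symmDiff, h1, h2]

variable {K V : Type*} [Field K] [AddCommGroup V] [Module K V] {σ : K →+* K}

/-- the form in coordinates -/
lemma form_eq {b : V →ₗ[K] V →ₛₗ[σ] K} {B : Basis (Idx n) K V} {α : K}
    (hb : ∀ x y, b x y = σ (b y x)) (hB : Adapted b B α) (S : Finset (Fin n)) (x y : V) :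
    b x y = ∑ k, (B.repr x (col S k) * σ (B.repr y (col Sᶜ k)) +
      B.repr x (col Sᶜ k) * σ (B.repr y (col S k))) + α * B.repr x gi * σ (B.repr y gi) := by
  have hfe : ∀ i j, b (B (fi i)) (B (ei j)) = if i = j then 1 else 0 := by
    intro i j
    rw [hb, hB.ef]
    by_cases h : i = j
    · simp [h]
    · simp [h, Ne.symm h]
  have hge : ∀ i, b (B gi) (B (ei i)) = 0 := fun i => by rw [hb, hB.eg, map_zero]
  have hgf : ∀ i, b (B gi) (B (fi i)) = 0 := fun i => by rw [hb, hB.fg, map_zero]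
  have h0 : b x y = ∑ c, ∑ d, B.repr x c * (σ (B.repr y d) * b (B c) (B d)) := by
    conv_lhs => rw [← B.sum_repr x, ← B.sum_repr y]
    simp only [map_sum, LinearMap.sum_apply, map_smul, LinearMap.smul_apply, smul_eq_mul,
      LinearMap.map_smulₛₗ, Finset.mul_sum]
    rw [Finset.sum_comm]
    exact Finset.sum_congr rfl fun c _ => Finset.sum_congr rfl fun d _ => by ring
  have h1 : b x y = ∑ k, (B.repr x (ei k) * σ (B.repr y (fi k)) +
      B.repr x (fi k) * σ (B.repr y (ei k))) + α * B.repr x gi * σ (B.repr y gi) := by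
    rw [h0]
    simp only [Fintype.sum_sum_type, hB.ee, hB.ff, hB.ef, hB.eg, hB.fg, hfe, hge, hgf, hB.gg,
      mul_zero, mul_ite, mul_one, Finset.sum_const_zero, Finset.sum_ite_eq, Finset.mem_univ,
      if_true, add_zero, zero_add, Finset.univ_unique, Finset.sum_singleton, Finset.sum_add_distrib]
    ring
  rw [h1]
  congr 1
  refine Finset.sum_congr rfl fun k _ => ?_
  by_cases hk : k ∈ S
  · rw [col_mem hk, col_not_mem (by simp [hk])]
  · rw [col_not_mem hk, col_mem (by simp [hk])]
    ring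

/-- The matrix whose rows are the coordinates of the basis `v` of `L`. -/
noncomputable def rows (B : Basis (Idx n) K V) {L : Submodule K V} (v : Basis (Fin n) K L) :
    Matrix (Fin n) (Idx n) K :=
  Matrix.of fun i c => B.repr (v i : V) c

/-- Some minor is nonzero. -/
lemma feasible {b : V →ₗ[K] V →ₛₗ[σ] K} {B : Basis (Idx n) K V} {α : K}
    (hb : ∀ x y, b x y = σ (b y x)) (hB : Adapted b B α) {L : Submodule K V}
    (hL : ∀ x ∈ L, ∀ y ∈ L, b x y = 0) (v : Basis (Fin n) K L) :
    ∃ S : Finset (Fin n), minor (rows B v) S ≠ 0 := by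
  classical
  have hfinV : FiniteDimensional K V := Module.Finite.of_basis B
  -- the kernel of the projection to the columns of `S`
  let N : Finset (Fin n) → Submodule K V := fun S =>
    { carrier := {x | x ∈ L ∧ ∀ i, B.repr x (col S i) = 0}
      add_mem' := fun {x y} hx hy => ⟨L.add_mem hx.1 hy.1, fun i => by
        rw [map_add, Finsupp.add_apply, hx.2 i, hy.2 i, add_zero]⟩
      zero_mem' := ⟨L.zero_mem, fun i => by rw [map_zero, Finsupp.zero_apply]⟩
      smul_mem' := fun a x hx => ⟨L.smul_mem a hx.1, fun i => by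
        rw [map_smul, Finsupp.smul_apply, hx.2 i, smul_zero]⟩ }
  have hNmem : ∀ S x, x ∈ N S ↔ x ∈ L ∧ ∀ i, B.repr x (col S i) = 0 := fun S x => Iff.rfl
  obtain ⟨S, -, hS⟩ := Finset.exists_min_image Finset.univ (fun S => finrank K (N S))
    ⟨∅, Finset.mem_univ _⟩
  have hbot : ∀ x ∈ N S, x = 0 := by
    intro x hx
    by_contra hx0
    have hxx := hL x hx.1 x hx.1
    rw [form_eq hb hB S] at hxx
    have hg : B.repr x gi = 0 := by
      simp only [hx.2, zero_mul, map_zero, mul_zero, add_zero, Finset.sum_const_zero,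
        zero_add, mul_eq_zero, hB.ne, false_or] at hxx
      rcases hxx with h | h
      · exact h
      · exact (map_eq_zero σ).1 h
    obtain ⟨i, hi⟩ : ∃ i, B.repr x (col Sᶜ i) ≠ 0 := by
      by_contra hcon
      push Not at hcon
      apply hx0
      apply B.repr.injective
      rw [map_zero]
      ext c
      rw [Finsupp.zero_apply]
      rcases c with (c | c) | c
      · by_cases hc : c ∈ S
        · have := hx.2 c
          rwa [col_mem hc] at this
        · have := hcon c
          rwa [col_mem (by simp [hc])] at this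
      · by_cases hc : c ∈ S
        · have := hcon c
          rwa [col_not_mem (by simp [hc])] at this
        · have := hx.2 c
          rwa [col_not_mem hc] at this
      · exact hg
    have hlt : N (symmDiff S {i}) < N S := by
      refine lt_of_le_of_ne ?_ ?_
      · intro y hy
        refine ⟨hy.1, fun k => ?_⟩
        rcases eq_or_ne k i with rfl | hk
        · have hxy := hL x hx.1 y hy.1
          rw [form_eq hb hB S] at hxy
          have h2 : ∀ j ∈ Finset.univ, j ≠ k →
              B.repr x (col S j) * σ (B.repr y (col Sᶜ j)) +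
                B.repr x (col Sᶜ j) * σ (B.repr y (col S j)) = 0 := by
            intro j _ hj
            have := hy.2 j
            rw [col_symmDiff_not_mem (by simpa using hj)] at this
            rw [hx.2 j, this, map_zero, zero_mul, mul_zero, add_zero]
          rw [Finset.sum_eq_single k h2 (fun h => absurd (Finset.mem_univ _) h), hx.2 k, hg,
            zero_mul, mul_zero, zero_mul, add_zero, zero_add, mul_eq_zero] at hxy
          rcases hxy with h | h
          · exact absurd h hi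
          · exact (map_eq_zero σ).1 h
        · have := hy.2 k
          rwa [col_symmDiff_not_mem (by simpa using hk)] at this
      · intro he
        have hx' : x ∈ N (symmDiff S {i}) := he ▸ hx
        have := hx'.2 i
        rw [col_symmDiff_mem (by simp)] at this
        exact hi this
    exact absurd (Submodule.finrank_lt_finrank_of_lt hlt) (not_lt.2 (hS _ (Finset.mem_univ _)))
  refine ⟨S, fun hdet => ?_⟩
  obtain ⟨c, hc0, hc⟩ := Matrix.exists_vecMul_eq_zero_iff.2 hdet
  have hmem : ((∑ i, c i • v i : L) : V) ∈ N S := by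
    refine ⟨Submodule.coe_mem _, fun j => ?_⟩
    have h1 := congrFun hc j
    simp only [Matrix.vecMul, dotProduct, rows, Matrix.of_apply, Pi.zero_apply] at h1
    rw [← h1]
    push_cast
    rw [map_sum, Finsupp.finsetSum_apply]
    refine Finset.sum_congr rfl fun i _ => ?_
    rw [map_smul, Finsupp.smul_apply, smul_eq_mul]
  have h0 := hbot _ hmem
  have h1 : (∑ i, c i • v i : L) = 0 := by exact_mod_cast h0
  apply hc0
  have h2 := v.linearIndependent
  rw [Fintype.linearIndependent_iff] at h2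
  funext i
  exact h2 c h1 i

/-- The change of coordinates at a feasible set `S`. -/
lemma pivot {b : V →ₗ[K] V →ₛₗ[σ] K} {B : Basis (Idx n) K V} {α : K}
    (hb : ∀ x y, b x y = σ (b y x)) (hB : Adapted b B α) {L : Submodule K V}
    (hL : ∀ x ∈ L, ∀ y ∈ L, b x y = 0) (v : Basis (Fin n) K L) (S : Finset (Fin n))
    (hS : minor (rows B v) S ≠ 0) :
    ∃ (A : Matrix (Fin n) (Fin n) K) (w : Fin n → K),
      (∀ i j, A i j + σ (A j i) + α * w i * σ (w j) = 0) ∧
      ∀ Y : Finset (Fin n), minor (rows B v) (symmDiff S Y) =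
        minor (rows B v) S * Matrix.det (Matrix.of fun i j => if j ∈ Y then A i j else
          (1 : Matrix (Fin n) (Fin n) K) i j) := by
  classical
  set M := rows B v with hM
  let NS : Matrix (Fin n) (Fin n) K := Matrix.of fun i j => M i (col S j)
  have hNS : IsUnit NS.det := isUnit_iff_ne_zero.2 hS
  let M' : Matrix (Fin n) (Idx n) K := NS⁻¹ * M
  have hM' : NS * M' = M := by
    show NS * (NS⁻¹ * M) = M
    rw [← Matrix.mul_assoc, Matrix.mul_nonsing_inv _ hNS, Matrix.one_mul]
  have hcolS : ∀ i j, M' i (col S j) = (1 : Matrix (Fin n) (Fin n) K) i j := by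
    intro i j
    have h1 : (NS⁻¹ * NS) i j = (1 : Matrix (Fin n) (Fin n) K) i j := by
      rw [Matrix.nonsing_inv_mul _ hNS]
    rw [← h1]
    rfl
  let v' : Fin n → V := fun i => ∑ k, NS⁻¹ i k • (v k : V)
  have hv' : ∀ i, v' i ∈ L := fun i => Submodule.sum_mem _ fun k _ =>
    L.smul_mem _ (Submodule.coe_mem _)
  have hrepr : ∀ i c, B.repr (v' i) c = M' i c := by
    intro i c
    show B.repr (∑ k, NS⁻¹ i k • (v k : V)) c = _
    rw [map_sum, Finsupp.finsetSum_apply]
    refine Finset.sum_congr rfl fun k _ => ?_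
    rw [map_smul, Finsupp.smul_apply, smul_eq_mul]
    rfl
  refine ⟨Matrix.of fun i j => M' i (col Sᶜ j), fun i => M' i gi, ?_, ?_⟩
  · intro i j
    have h := hL (v' i) (hv' i) (v' j) (hv' j)
    rw [form_eq hb hB S] at h
    simp only [hrepr, hcolS] at h
    rw [← h]
    simp only [Matrix.of_apply, Finset.sum_add_distrib, Matrix.one_apply, ite_mul, one_mul,
      zero_mul, Finset.sum_ite_eq, Finset.mem_univ, if_true, apply_ite σ, map_one, map_zero,
      mul_ite, mul_one, mul_zero]
    ring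
  · intro Y
    have h1 : (Matrix.of fun i j => M i (col (symmDiff S Y) j) : Matrix (Fin n) (Fin n) K) =
        NS * Matrix.of fun i j => M' i (col (symmDiff S Y) j) := by
      ext i j
      have := congrFun (congrFun hM' i) (col (symmDiff S Y) j)
      rw [Matrix.of_apply, ← this]
      rfl
    unfold minor
    rw [h1, Matrix.det_mul]
    congr 2
    ext i j
    simp only [Matrix.of_apply]
    by_cases hj : j ∈ Y
    · rw [if_pos hj, col_symmDiff_mem hj]
    · rw [if_neg hj, col_symmDiff_not_mem hj, hcolS]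

/-- The principal minor of `A` on the rows and columns satisfying `p`. -/
def pminor (A : Matrix (Fin n) (Fin n) K) (p : Fin n → Prop) [DecidablePred p] : K :=
  Matrix.det (Matrix.toSquareBlockProp A p)

/-- The determinant of the matrix with the columns of `A` in `Y` and unit columns outside. -/
lemma det_block (A : Matrix (Fin n) (Fin n) K) (p : Fin n → Prop) [DecidablePred p] :
    Matrix.det (Matrix.of fun i j => if p j then A i j else (1 : Matrix (Fin n) (Fin n) K) i j) =
      pminor A p := by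
  unfold pminor
  rw [Matrix.twoBlockTriangular_det' _ p]
  · have h1 : (Matrix.toSquareBlockProp (Matrix.of fun i j => if p j then A i j else
        (1 : Matrix (Fin n) (Fin n) K) i j) fun i => ¬ p i) = 1 := by
      ext ⟨i, hi⟩ ⟨j, hj⟩
      simp [Matrix.toSquareBlockProp_def, hj, Matrix.one_apply]
    have h2 : (Matrix.toSquareBlockProp (Matrix.of fun i j => if p j then A i j else
        (1 : Matrix (Fin n) (Fin n) K) i j) p) = Matrix.toSquareBlockProp A p := by
      ext ⟨i, hi⟩ ⟨j, hj⟩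
      simp [Matrix.toSquareBlockProp_def, hj]
    rw [h1, h2, Matrix.det_one, mul_one]
  · intro i hi j hj
    rw [Matrix.of_apply, if_neg hj, Matrix.one_apply_ne]
    rintro rfl
    exact hj hi

lemma det_single' (A : Matrix (Fin n) (Fin n) K) (i : Fin n) (p : Fin n → Prop) [DecidablePred p]
    (hp : ∀ x, p x ↔ x = i) : pminor A p = A i i := by
  unfold pminor
  rw [Matrix.det_eq_elem_of_card_eq_one (Fintype.card_eq_one_iff.2
    ⟨⟨i, (hp i).2 rfl⟩, fun ⟨x, hx⟩ => Subtype.ext ((hp x).1 hx)⟩) ⟨i, (hp i).2 rfl⟩]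
  rfl

lemma det_single (A : Matrix (Fin n) (Fin n) K) (i : Fin n) :
    pminor A (fun x => x ∈ ({i} : Finset (Fin n))) = A i i :=
  det_single' A i _ fun x => by simp

lemma det_pair' (A : Matrix (Fin n) (Fin n) K) {i j : Fin n} (hij : i ≠ j) (p : Fin n → Prop)
    [DecidablePred p] (hp : ∀ x, p x ↔ x = i ∨ x = j) :
    pminor A p = A i i * A j j - A i j * A j i := by
  unfold pminor
  let f : Fin 2 → {x // p x} := ![⟨i, (hp i).2 (Or.inl rfl)⟩, ⟨j, (hp j).2 (Or.inr rfl)⟩]
  have hf : Function.Bijective f := by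
    constructor
    · intro a c h
      fin_cases a <;> fin_cases c <;> simp_all [f]
    · rintro ⟨x, hx⟩
      rcases (hp x).1 hx with rfl | rfl
      · exact ⟨0, rfl⟩
      · exact ⟨1, rfl⟩
  rw [← Matrix.det_submatrix_equiv_self (Equiv.ofBijective f hf), Matrix.det_fin_two]
  rfl

lemma det_pair (A : Matrix (Fin n) (Fin n) K) {i j : Fin n} (hij : i ≠ j) :
    pminor A (fun x => x ∈ ({i, j} : Finset (Fin n))) = A i i * A j j - A i j * A j i :=
  det_pair' A hij _ fun x => by simp

lemma lt_pminor' (ν : AddValuation K (WithTop ℝ)) (A : Matrix (Fin n) (Fin n) K)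
    (Y : Finset (Fin n)) (hY : Y.Nonempty) (s : Fin n → ℝ) (p : Fin n → Prop) [DecidablePred p]
    (hp : ∀ x, p x ↔ x ∈ Y)
    (h : ∀ i ∈ Y, ∀ j ∈ Y, (((s i + s j) / 2 : ℝ) : WithTop ℝ) < ν (A i j)) :
    ((∑ i ∈ Y, s i : ℝ) : WithTop ℝ) < ν (pminor A p) := by
  unfold pminor
  obtain ⟨a, ha⟩ := hY
  have : Nonempty {x // p x} := ⟨⟨a, (hp a).2 ha⟩⟩
  rw [Finset.sum_subtype Y (fun x => (hp x).symm) s]
  exact lt_det ν _ _ fun i j => h i ((hp i).1 i.2) j ((hp j).1 j.2)

lemma lt_pminor (ν : AddValuation K (WithTop ℝ)) (A : Matrix (Fin n) (Fin n) K)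
    (Y : Finset (Fin n)) (hY : Y.Nonempty) (s : Fin n → ℝ)
    (h : ∀ i ∈ Y, ∀ j ∈ Y, (((s i + s j) / 2 : ℝ) : WithTop ℝ) < ν (A i j)) :
    ((∑ i ∈ Y, s i : ℝ) : WithTop ℝ) < ν (pminor A fun x => x ∈ Y) :=
  lt_pminor' ν A Y hY s _ (fun _ => Iff.rfl) h

end Main

/-- **Q1.** Let `K` be a field with an involutive automorphism `σ` and a `σ`-invariant
nonarchimedean valuation `ν : K → ℝ ∪ {∞}`.  Let `V` be a `K`-vector space with a Hermitian form `b`
and a basis `e_1, ..., e_n, f_1, ..., f_n, g` as in `Adapted`, let `L` be an isotropic subspace with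
basis `v_1, ..., v_n`, and `M` the matrix of the coordinates of `v_1, ..., v_n`.  Then
`p_S(L) = ν (det M[{e_i : i ∈ S} ∪ {f_i : i ∉ S}])` is finite for some `S`, and `S ↦ p_S(L)` is a
valuated Delta-matroid. -/
theorem result {n : ℕ} {K V : Type*} [Field K] [AddCommGroup V] [Module K V]
    (σ : K →+* K) (_hσ : ∀ a, σ (σ a) = a)
    (ν : AddValuation K (WithTop ℝ)) (hν : ∀ a, ν (σ a) = ν a)
    (b : V →ₗ[K] V →ₛₗ[σ] K) (hb : ∀ x y, b x y = σ (b y x))
    (B : Basis (Idx n) K V) (α : K) (hB : Adapted b B α)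
    (L : Submodule K V) (hL : ∀ x ∈ L, ∀ y ∈ L, b x y = 0) (v : Basis (Fin n) K L) :
    (∃ S : Finset (Fin n), ν (minor (rows B v) S) ≠ ⊤) ∧
    IsValuatedDeltaMatroid fun S => ν (minor (rows B v) S) := by
  classical
  constructor
  · obtain ⟨S, hS⟩ := feasible hb hB hL v
    refine ⟨S, ?_⟩
    rw [Ne, AddValuation.top_iff]
    exact hS
  intro x y hxy hcell
  obtain ⟨S, T, u, m, rfl, rfl, hST, hpS, hpT, hp⟩ := edge_vertices hxy hcell
  refine direction hST ?_
  by_contra hcard
  rw [not_le] at hcard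
  have hS : minor (rows B v) S ≠ 0 := by
    intro h
    simp only [h, ν.map_zero] at hpS
    exact absurd hpS.symm (WithTop.coe_ne_top)
  obtain ⟨A, w, hA, hmin⟩ := pivot hb hB hL v S hS
  set X := symmDiff S T with hX
  let s : Fin n → ℝ := fun i => if i ∈ S then -u i else u i
  -- valuations of the principal minors of `A`
  have hval : ∀ Y : Finset (Fin n), Y ≠ ∅ → Y ≠ X →
      ((∑ i ∈ Y, s i : ℝ) : WithTop ℝ) <
        ν (pminor A fun x => x ∈ Y) := by
    intro Y hY0 hYX
    have h1 := hp (symmDiff S Y) (by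
        intro h
        exact hY0 (by simpa using (symmDiff_eq_left.1 h)))
      (by
        intro h
        apply hYX
        rw [hX, ← h, symmDiff_symmDiff_cancel_left])
    rw [hmin Y, det_block A (fun x => x ∈ Y), ν.map_mul, hpS, sum_symmDiff] at h1
    rcases eq_or_ne (ν (pminor A fun x => x ∈ Y)) ⊤ with h2 | h2
    · rw [h2]; exact WithTop.coe_lt_top _
    obtain ⟨r, hr⟩ := WithTop.ne_top_iff_exists.1 h2
    rw [← hr] at h1 ⊢
    rw [← WithTop.coe_add, WithTop.coe_lt_coe] at h1
    rw [WithTop.coe_lt_coe]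
    have e : ∑ i ∈ Y, s i = ∑ i ∈ Y, if i ∈ S then -u i else u i := rfl
    linarith
  have hvalX : ν (pminor A fun x => x ∈ X) =
      ((∑ i ∈ X, s i : ℝ) : WithTop ℝ) := by
    have h0 : symmDiff S X = T := by rw [hX, symmDiff_symmDiff_cancel_left]
    have h1 := hpT
    rw [← h0, hmin X, det_block A (fun x => x ∈ X), ν.map_mul, hpS, sum_symmDiff] at h1
    rcases eq_or_ne (ν (pminor A fun x => x ∈ X)) ⊤ with h2 | h2
    · rw [h2, WithTop.add_top] at h1
      exact absurd h1.symm WithTop.coe_ne_top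
    obtain ⟨r, hr⟩ := WithTop.ne_top_iff_exists.1 h2
    rw [← hr] at h1 ⊢
    rw [← WithTop.coe_add, WithTop.coe_inj] at h1
    rw [WithTop.coe_inj]
    have e : ∑ i ∈ X, s i = ∑ i ∈ X, if i ∈ S then -u i else u i := rfl
    linarith
  have hXne : X.Nonempty := Finset.card_pos.1 (show 0 < X.card by omega)
  have key : ((∑ i ∈ X, s i : ℝ) : WithTop ℝ) < ν (pminor A fun x => x ∈ X) := by
    refine lt_pminor ν A X hXne s fun i hi j hj => ?_
    refine entry_bound ν σ hν (fun i j : {x // x ∈ X} => A i j) (fun i => w i) α hB.ne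
      (fun i j => hA i j) (fun i => s i) ?_ ?_ ⟨i, hi⟩ ⟨j, hj⟩
    · intro i
      have h1 := hval {(i : Fin n)} (Finset.singleton_ne_empty _) (by
        intro h
        rw [← h, Finset.card_singleton] at hcard
        omega)
      rwa [det_single, Finset.sum_singleton] at h1
    · intro i j hij
      have hij' : (i : Fin n) ≠ j := fun h => hij (Subtype.ext h)
      have h1 := hval {(i : Fin n), (j : Fin n)} (Finset.insert_ne_empty _ _) (by
        intro h
        rw [← h, Finset.card_pair hij'] at hcard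
        omega)
      rwa [det_pair A hij', Finset.sum_pair hij'] at h1
  rw [hvalX] at key
  exact lt_irrefl _ key

end Pool.Agent.Results.MP_973d57_co.OddHermitian
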